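import Pool.Agent.MP86c582.Defs
import Pool.Agent.MP86c582.Proof

open Pool.Agent.MP86c582

/-- For every `d ≥ 1`, every shift that is isolated in the space of transitive `d`-dimensional
shifts has topological entropy zero. -/
theorem Pool.Agent.Results.MP_86c582_an.IsolatedEntropyZero.result :
    ∀ d : ℕ, 1 ≤ d → ∀ X : Set (Config d), IsIsolated X → HasEntropy X 0 :=
  Pool.Agent.MP86c582.main
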